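import Pool.Agent.helper60.DA.SpecW

/-!
# Row dw:VTX (MP_fb2c2a_nt)
-/

set_option autoImplicit false

namespace Pool.Agent.helper60.DA

open Polynomial Finset Pool.Agent.helper60.DK

theorem VTX_dvd (p : ℕ) [Fact p.Prime] (f g : ℤ[X]) (h : red p f = red p g) :
    ∃ V : ℤ[X], f = g + C (p : ℤ) * V := by
  have h1 : C (p : ℤ) ∣ f - g := by
    rw [C_dvd_iff_dvd_coeff]
    intro i
    have h2 : (red p f).coeff i = (red p g).coeff i := by rw [h]
    rw [red, coeff_map, red, coeff_map] at h2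
    rw [coeff_sub]
    have h3 : (((f.coeff i - g.coeff i : ℤ)) : ZMod p) = 0 := by
      push_cast
      rw [sub_eq_zero]
      exact h2
    exact (ZMod.intCast_zmod_eq_zero_iff_dvd _ p).1 h3
  obtain ⟨V, hV⟩ := h1
  exact ⟨V, by rw [← hV]; ring⟩

theorem VTX_deg_St (p : ℕ) : (St p).natDegree ≤ 3 * hh p := by
  unfold St
  refine natDegree_sum_le_of_forall_le _ _ fun i hi => ?_
  rw [mem_range] at hi
  exact (natDegree_C_mul_X_pow_le _ _).trans (by omega)

theorem VTX_deg_pow (h : ℕ) (c : ℤ) : ((1 + C c * X : ℤ[X]) ^ h).natDegree ≤ h := by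
  refine (natDegree_pow_le).trans ?_
  have h1 : (1 + C c * X : ℤ[X]).natDegree ≤ 1 := by
    refine (natDegree_add_le _ _).trans (max_le ?_ ?_)
    · rw [natDegree_one]
      exact Nat.zero_le _
    · exact (natDegree_C_mul_le _ _).trans natDegree_X_le
  calc h * (1 + C c * X : ℤ[X]).natDegree ≤ h * 1 := Nat.mul_le_mul_left _ h1
    _ = h := mul_one h

theorem VTX (h : INV_stmt) (hr : RV_stmt) : VTX_stmt := by
  intro p hp h5
  obtain ⟨h1, h2⟩ := h p h5
  refine ⟨?_, fun V2 hV => ?_⟩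
  · obtain ⟨V, hV⟩ := VTX_dvd p _ _ (h1.trans h2.symm)
    exact ⟨V, hV⟩
  · have hN : (Nz p).natDegree ≤ 3 * hh p := (hr ℤ).2.2.2.2.2 (3 * hh p) (St p)
    have hS := VTX_deg_St p
    have e1 : (1 + X : ℤ[X]) = 1 + C 1 * X := by rw [C_1, one_mul]
    have e4 : (1 + 4 * X : ℤ[X]) = 1 + C 4 * X := by
      have : (C 4 : ℤ[X]) = 4 := rfl
      rw [this]
    have d1 : ((1 + X) ^ hh p * Nz p : ℤ[X]).natDegree ≤ 4 * hh p := by
      refine natDegree_mul_le.trans ?_
      have := VTX_deg_pow (hh p) 1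
      rw [← e1] at this
      omega
    have d4 : ((1 + 4 * X) ^ hh p * St p : ℤ[X]).natDegree ≤ 4 * hh p := by
      refine natDegree_mul_le.trans ?_
      have := VTX_deg_pow (hh p) 4
      rw [← e4] at this
      omega
    have e : C (p : ℤ) * V2 = (1 + X) ^ hh p * Nz p - (1 + 4 * X) ^ hh p * St p := by
      rw [hV]
      ring
    have hp0 : (p : ℤ) ≠ 0 := by
      have := hp.out.ne_zero
      exact_mod_cast this
    have e2 : (C (p : ℤ) * V2).natDegree = V2.natDegree := natDegree_C_mul hp0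
    rw [← e2, e]
    exact (natDegree_sub_le _ _).trans (max_le d1 d4)

end Pool.Agent.helper60.DA
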